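import Pool.Agent.helper92.RC.Spec

set_option autoImplicit false

namespace Pool.Agent.helper92.RC

open scoped commutatorElement

universe u

/-- The pieces over the classes below `al i`. -/
abbrev STA_P {F : Type u} [Group F] (S : St F) (i : S.I) : Type (u + 1) :=
  Piece (fun X hX => ∃ β : Set.Iio (S.al i), Q β.1 X hX) (S.G i)

/-- The subgroup of a family of pieces. -/
def STA_N {F : Type u} [Group F] (S : St F) (p : ∀ i, Option (STA_P S i)) :
    Subgroup (∀ i, S.G i) where
  carrier := {h | ∀ i, (p i = none → h i = 1) ∧ ∀ q, p i = some q → h i ∈ q.θ.range}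
  mul_mem' := by
    intro a b ha hb i
    refine ⟨fun h => ?_, fun q hq => ?_⟩
    · show a i * b i = 1
      rw [(ha i).1 h, (hb i).1 h, one_mul]
    · exact q.θ.range.mul_mem ((ha i).2 q hq) ((hb i).2 q hq)
  one_mem' := by
    intro i
    exact ⟨fun _ => rfl, fun q _ => q.θ.range.one_mem⟩
  inv_mem' := by
    intro a ha i
    refine ⟨fun h => ?_, fun q hq => ?_⟩
    · show (a i)⁻¹ = 1
      rw [(ha i).1 h, inv_one]
    · exact q.θ.range.inv_mem ((ha i).2 q hq)

theorem STA_Nn {F : Type u} [Group F] (S : St F) (p : ∀ i, Option (STA_P S i)) :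
    (STA_N S p).Normal := by
  constructor
  intro n hn g i
  refine ⟨fun h => ?_, fun q hq => ?_⟩
  · show g i * n i * (g i)⁻¹ = 1
    rw [(hn i).1 h, mul_one, mul_inv_cancel]
  · exact q.hθ.conj_mem _ ((hn i).2 q hq) (g i)

/-- The elements which are trivial outside of the commutative coordinates. -/
def STA_N0 {F : Type u} [Group F] (S : St F) : Subgroup (∀ i, S.G i) where
  carrier := {h | ∀ i, (¬ ∀ x y : S.G i, x * y = y * x) → h i = 1}
  mul_mem' := by
    intro a b ha hb i hi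
    show a i * b i = 1
    rw [ha i hi, hb i hi, one_mul]
  one_mem' := by
    intro i _
    rfl
  inv_mem' := by
    intro a ha i hi
    show (a i)⁻¹ = 1
    rw [ha i hi, inv_one]

theorem STA_N0n {F : Type u} [Group F] (S : St F) : (STA_N0 S).Normal := by
  constructor
  intro n hn g i hi
  show g i * n i * (g i)⁻¹ = 1
  rw [hn i hi, mul_one, mul_inv_cancel]

theorem STA : LJ_stmt.{u} → FT_stmt.{u} → STB_stmt.{u} → STA_stmt.{u} := by
  intro hLJ hFT hSTB F _ _ S
  classical
  -- an element with non-trivial image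
  obtain ⟨x0, hx0⟩ : ∃ x0 : S.C S.d, S.f x0 ≠ 1 := by
    obtain ⟨_, ⟨a, rfl⟩, _, ⟨b, rfl⟩, hab⟩ := S.hf
    refine ⟨a, fun h => hab ?_⟩
    rw [h, one_mul, mul_one]
  have H : ∀ i, (¬ ∀ x y : S.G i, x * y = y * x) →
      ∃ (p q : STA_P S i) (x : p.M) (y : q.M), (x0 : ∀ j, S.G j) i = p.θ x * q.θ y := by
    intro i hi
    rcases (Q_iff (S.al i) (S.G i) (S.gG i)).1 (S.hQ i) with h | h
    · exact absurd h hi
    · exact h ((x0 : ∀ j, S.G j) i)
  choose pp qq uu vv huv using H
  let p1 : ∀ i, Option (STA_P S i) := fun i =>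
    if h : ∀ x y : S.G i, x * y = y * x then none else some (pp i h)
  let p2 : ∀ i, Option (STA_P S i) := fun i =>
    if h : ∀ x y : S.G i, x * y = y * x then none else some (qq i h)
  have p1a : ∀ i, (∀ x y : S.G i, x * y = y * x) → p1 i = none := fun i h => dif_pos h
  have p1b : ∀ i (h : ¬ ∀ x y : S.G i, x * y = y * x), p1 i = some (pp i h) :=
    fun i h => dif_neg h
  have p2a : ∀ i, (∀ x y : S.G i, x * y = y * x) → p2 i = none := fun i h => dif_pos h
  have p2b : ∀ i (h : ¬ ∀ x y : S.G i, x * y = y * x), p2 i = some (qq i h) :=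
    fun i h => dif_neg h
  let h0 : ∀ i, S.G i := fun i =>
    if h : ∀ x y : S.G i, x * y = y * x then (x0 : ∀ j, S.G j) i else 1
  let h1 : ∀ i, S.G i := fun i =>
    if h : ∀ x y : S.G i, x * y = y * x then 1 else (pp i h).θ (uu i h)
  let h2 : ∀ i, S.G i := fun i =>
    if h : ∀ x y : S.G i, x * y = y * x then 1 else (qq i h).θ (vv i h)
  have h0m : h0 ∈ STA_N0 S := by
    intro i hi
    exact dif_neg hi
  have h1m : h1 ∈ STA_N S p1 := by
    intro i
    by_cases hi : ∀ x y : S.G i, x * y = y * x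
    · refine ⟨fun _ => dif_pos hi, fun q hq => ?_⟩
      rw [p1a i hi] at hq
      exact absurd hq (by simp)
    · refine ⟨fun hn => ?_, fun q hq => ?_⟩
      · rw [p1b i hi] at hn
        exact absurd hn (by simp)
      · rw [p1b i hi] at hq
        have hq' : pp i hi = q := Option.some.inj hq
        subst hq'
        have e : h1 i = (pp i hi).θ (uu i hi) := dif_neg hi
        rw [e]
        exact ⟨uu i hi, rfl⟩
  have h2m : h2 ∈ STA_N S p2 := by
    intro i
    by_cases hi : ∀ x y : S.G i, x * y = y * x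
    · refine ⟨fun _ => dif_pos hi, fun q hq => ?_⟩
      rw [p2a i hi] at hq
      exact absurd hq (by simp)
    · refine ⟨fun hn => ?_, fun q hq => ?_⟩
      · rw [p2b i hi] at hn
        exact absurd hn (by simp)
      · rw [p2b i hi] at hq
        have hq' : qq i hi = q := Option.some.inj hq
        subst hq'
        have e : h2 i = (qq i hi).θ (vv i hi) := dif_neg hi
        rw [e]
        exact ⟨vv i hi, rfl⟩
  have hx : (x0 : ∀ j, S.G j) = h0 * h1 * h2 := by
    funext i
    by_cases hi : ∀ x y : S.G i, x * y = y * x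
    · have e0 : h0 i = (x0 : ∀ j, S.G j) i := dif_pos hi
      have e1 : h1 i = 1 := dif_pos hi
      have e2 : h2 i = 1 := dif_pos hi
      show (x0 : ∀ j, S.G j) i = h0 i * h1 i * h2 i
      rw [e0, e1, e2, mul_one, mul_one]
    · have e0 : h0 i = 1 := dif_neg hi
      have e1 : h1 i = (pp i hi).θ (uu i hi) := dif_neg hi
      have e2 : h2 i = (qq i hi).θ (vv i hi) := dif_neg hi
      show (x0 : ∀ j, S.G j) i = h0 i * h1 i * h2 i
      rw [e0, e1, e2, one_mul]
      exact huv i hi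
  let N : Fin 3 → Subgroup (∀ i, S.G i) := ![STA_N0 S, STA_N S p1, STA_N S p2]
  have hN : ∀ s, (N s).Normal := by
    intro s
    match s with
    | 0 => exact STA_N0n S
    | 1 => exact STA_Nn S p1
    | 2 => exact STA_Nn S p2
  have hmem : (x0 : ∀ j, S.G j) ∈ ⨆ s, N s := by
    rw [hx]
    refine Subgroup.mul_mem _ (Subgroup.mul_mem _ ?_ ?_) ?_
    · exact Subgroup.mem_iSup_of_mem (S := N) 0 h0m
    · exact Subgroup.mem_iSup_of_mem (S := N) 1 h1m
    · exact Subgroup.mem_iSup_of_mem (S := N) 2 h2m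
  obtain ⟨s, y, hys, hy1⟩ := hLJ F (∀ i, S.G i) S.C S.d S.hC S.f S.hf N hN x0 hx0 hmem
  have hNC : NonComm (((N s).subgroupOf (S.C S.d)).map S.f) := by
    apply hFT F S.f.range _ S.hf
    · rintro _ ⟨k, _, rfl⟩
      exact ⟨k, rfl⟩
    · rintro _ ⟨k, hk, rfl⟩ _ ⟨c, rfl⟩
      refine ⟨c * k * c⁻¹, ?_, ?_⟩
      · exact (hN s).conj_mem _ hk (c : ∀ j, S.G j)
      · rw [map_mul, map_mul, map_inv]
    · intro hbot
      apply hy1
      have : S.f y ∈ ((N s).subgroupOf (S.C S.d)).map S.f := ⟨y, hys, rfl⟩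
      rw [hbot] at this
      exact Subgroup.mem_bot.1 this
  obtain ⟨_, ⟨a, ha, rfl⟩, _, ⟨b, hb, rfl⟩, hab⟩ := hNC
  have ha' : (a : ∀ j, S.G j) ∈ N s := ha
  have hb' : (b : ∀ j, S.G j) ∈ N s := hb
  clear ha hb hys
  match s, ha', hb' with
  | 0, ha', hb' =>
    exfalso
    apply hab
    rw [← map_mul, ← map_mul]
    apply congrArg
    apply Subtype.ext
    funext i
    show (a : ∀ j, S.G j) i * (b : ∀ j, S.G j) i = (b : ∀ j, S.G j) i * (a : ∀ j, S.G j) i
    by_cases hi : ∀ x y : S.G i, x * y = y * x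
    · exact hi _ _
    · have e1 : (a : ∀ j, S.G j) i = 1 := (show (a : ∀ j, S.G j) ∈ STA_N0 S from ha') i hi
      have e2 : (b : ∀ j, S.G j) i = 1 := (show (b : ∀ j, S.G j) ∈ STA_N0 S from hb') i hi
      rw [e1, e2]
  | 1, ha', hb' =>
    exact hSTB F S p1 ⟨a, b, (show (a : ∀ j, S.G j) ∈ STA_N S p1 from ha'),
      (show (b : ∀ j, S.G j) ∈ STA_N S p1 from hb'), hab⟩
  | 2, ha', hb' =>
    exact hSTB F S p2 ⟨a, b, (show (a : ∀ j, S.G j) ∈ STA_N S p2 from ha'),
      (show (b : ∀ j, S.G j) ∈ STA_N S p2 from hb'), hab⟩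

end Pool.Agent.helper92.RC
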